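import Pool.Agent.P.MP_11f821_pr.Main

namespace Pool.Agent.Results.MP_11f821_pr.HittingTime

open Pool.Agent.P.MP_11f821_pr

/-- For all `ε, η > 0` and all large `n`: for every loopless digraph `D` on `n` vertices with all
out-degrees and in-degrees at least `(1/2 + ε) n`, the proportion of orderings of the arcs of `D`
for which the hitting time of Hamiltonicity equals the hitting time of minimum semidegree one is
at least `1 - η`. -/
theorem result (ε : ℝ) (hε : 0 < ε) (η : ℝ) (hη : 0 < η) :
    ∃ n₀ : ℕ, ∀ n ≥ n₀, ∀ D : Finset (Fin n × Fin n), (∀ e ∈ D, e.1 ≠ e.2) →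
      (∀ v, (1 / 2 + ε) * n ≤ ((D.filter fun e => e.1 = v).card : ℝ)) →
      (∀ v, (1 / 2 + ε) * n ≤ ((D.filter fun e => e.2 = v).card : ℝ)) →
      1 - η ≤ (Nat.card {σ : Fin D.card ≃ D // tauHam σ = tauOne σ} : ℝ) /
        Nat.card (Fin D.card ≃ D) :=
  main ε hε η hη

end Pool.Agent.Results.MP_11f821_pr.HittingTime
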